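import Pool.Agent.Helper64.IG.All

/-!
# MP_d01c92_ag: noetherianity of the loci of bounded branch-width

All definitions are in `Pool/Agent/Helper64/IG/Defs.lean`.
-/

universe u

open Pool.Agent.Helper64.IG in
/-- **Equivariant noetherianity in bounded branch-width.** For all fields `k ⊆ K` and all `w`, the
locus `BW K w` of the points of branch-width at most `w` of the affine infinite Grassmannian is
Zariski closed (over `k`), stable under `N(∞)`, and every descending chain of subsets of `BW K w`
which are Zariski closed (over `k`) and stable under the signed permutations in `N(∞)`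
stabilizes. -/
theorem Pool.Agent.Results.MP_d01c92_ag.BranchWidth.result (k K : Type u) [Field k] [Field K]
    [Algebra k K] (w : ℕ) :
    IsZClosed k (BW K w) ∧ NStable Set.univ (BW K w) ∧
      ∀ C : ℕ → Set (Pt K), (∀ j, IsZClosed k (C j)) → (∀ j, NStable {1, -1} (C j)) →
        Antitone C → C 0 ⊆ BW K w → ∃ j₀, ∀ j ≥ j₀, C j = C j₀ :=
  Pool.Agent.Helper64.IG.final k K w
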