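import Pool.Agent.Helper79.LG.Final

/-!
# MP_d01c92_ag: linear growth of the proper closed stable subsets

The definitions are in `Pool/Agent/Helper64/IG/Defs.lean`; `tdeg` is in
`Pool/Agent/Helper79/LG/Final.lean`.
-/

universe u v

open Pool.Agent.Helper64.IG Pool.Agent.Helper79.LG in
/-- **Gap theorem.** Let `k ⊆ K` be fields and `C` a set of `K`-points of the affine infinite
Grassmannian which is stable under the signed permutations in `N(∞)`. If some equation over `k` of
level `(m + 1, q + 1)` holds on `C` but not at all `K`-points, then for all `x ∈ C` and all levels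
`(n, p)` the coordinates of `x` of level `(n, p)` generate a field of transcendence degree at most
`q * n + m * p + 1` over `k`. So if `C` is Zariski closed over `k`, then either `C` is everything
(and then `n * p + 1` occurs), or the transcendence degree is at most `a * n + b * p + 1` with
constants `a, b` that depend only on `C`. -/
theorem Pool.Agent.Results.MP_d01c92_ag.LinearGrowth.result (k : Type v) (K : Type u) [Field k]
    [Field K] [Algebra k K] (C : Set (Pt K)) (hC : NStable {1, -1} C) :
    (∀ (m q : ℕ) (f : MvPolynomial (Fin (q + 1) → Ix (m + 1) (q + 1)) k),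
      (∀ x ∈ C, Sat x (⟨m + 1, q + 1, f⟩ : Eqn k)) →
      (∃ x : Pt K, ¬ Sat x (⟨m + 1, q + 1, f⟩ : Eqn k)) →
      ∀ n p : ℕ, ∀ x ∈ C, tdeg k x n p ≤ ((q * n + m * p + 1 : ℕ) : Cardinal)) ∧
    (IsZClosed k C →
      (C = Set.univ ∧ ∀ n p : ℕ, ((n * p + 1 : ℕ) : Cardinal) ≤ Algebra.trdeg k K →
        ∃ x ∈ C, tdeg k x n p = ((n * p + 1 : ℕ) : Cardinal)) ∨
      ∃ a b : ℕ, ∀ n p : ℕ, ∀ x ∈ C, tdeg k x n p ≤ ((a * n + b * p + 1 : ℕ) : Cardinal)) :=
  linearGrowth k K C hC
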