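import Pool.Agent.Helper64.RN.All

/-!
# MP_d01c92_ag: the locus of rational normal curves is noetherian

The definitions `IsRNC` and `RNC` are in `Pool/Agent/Helper64/RN/Defs.lean`, all others are in
`Pool/Agent/Helper64/IG/Defs.lean`.
-/

universe u

open Pool.Agent.Helper64.IG Pool.Agent.Helper64.RN in
/-- **The locus of rational normal curves is topologically `N(∞)`-noetherian.** For all fields
`k ⊆ K` with `K` infinite, the locus `RNC k K` (the points of the affine infinite Grassmannian all of
whose levels satisfy the equations over `k` of the configurations of points on rational normal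
curves) is Zariski closed over `k`, stable under `N(∞)(K)` and not contained in any `BW K w`; each
proper subset of it which is Zariski closed over `k` and stable under `N(∞)(K)` is contained in some
`BW K w`; and every descending chain of subsets of `RNC k K` which are Zariski closed over `k` and
stable under `N(∞)(K)` stabilizes. -/
theorem Pool.Agent.Results.MP_d01c92_ag.RationalNormalCurves.result (k K : Type u) [Field k]
    [Field K] [Algebra k K] [Infinite K] :
    IsZClosed k (RNC k K) ∧ NStable Set.univ (RNC k K) ∧ (∀ w, ¬ RNC k K ⊆ BW K w) ∧
    (∀ C : Set (Pt K), IsZClosed k C → NStable Set.univ C → C ⊆ RNC k K → C ≠ RNC k K →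
      ∃ w, C ⊆ BW K w) ∧
    ∀ C : ℕ → Set (Pt K), (∀ j, IsZClosed k (C j)) → (∀ j, NStable Set.univ (C j)) →
      Antitone C → C 0 ⊆ RNC k K → ∃ j₀, ∀ j ≥ j₀, C j = C j₀ :=
  Pool.Agent.Helper64.RN.final k K
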