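import Pool.Agent.Helper64.RN.All2

/-!
# MP_d01c92_ag: the smallest closed stable set with unbounded uniform minors

The definitions `IsRNC` and `RNC` are in `Pool/Agent/Helper64/RN/Defs.lean`, all others are in
`Pool/Agent/Helper64/IG/Defs.lean`.
-/

universe u

open Pool.Agent.Helper64.IG Pool.Agent.Helper64.RN in
/-- **Dichotomy in characteristic zero.** Let `k ⊆ K` be fields of characteristic `0` and `C` a set
of `K`-points of the affine infinite Grassmannian which is Zariski closed over `k` and stable under
`N(∞)(K)`. Then either `C` contains the whole locus `RNC k K` of rational normal curves, or for some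
`M` every point of `C` has a vanishing coordinate (at an injective tuple) at the level `(M, M)`.
(For `C = RNC k K` the second alternative fails for every `M`: see the last statement.) -/
theorem Pool.Agent.Results.MP_d01c92_ag.UniformMinors.result (k K : Type u) [Field k] [Field K]
    [Algebra k K] [CharZero K] :
    (∀ C : Set (Pt K), IsZClosed k C → NStable Set.univ C →
      RNC k K ⊆ C ∨ ∃ M : ℕ, ∀ x ∈ C, ∃ a : Fin M → Ix M M, Function.Injective a ∧
        x.x M M a = 0) ∧
    IsZClosed k (RNC k K) ∧ NStable Set.univ (RNC k K) ∧
    ∃ x ∈ RNC k K, ∀ (M : ℕ) (a : Fin M → Ix M M), Function.Injective a → x.x M M a ≠ 0 :=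
  Pool.Agent.Helper64.RN.final2 k K
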